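import Mathlib
import Pool.Agent.H602R3.DHJ.Base

/-!
Density Hales-Jewett: the Ramsey theorem for lines (Graham-Rothschild), in the form needed.
-/

namespace Pool.Agent.H602R3.DHJ

open Finset

/-- Hales-Jewett from Mathlib -/
theorem HJ (α κ η : Type) [Finite α] [Finite κ] [Finite η] : ∃ n : ℕ, ∀ C : (Fin n → α) → κ,
    ∃ V : Fin n → α ⊕ η, Pr V ∧ ∃ c, ∀ x, C (ap V x) = c := by
  obtain ⟨n, hn⟩ := Combinatorics.Subspace.exists_mono_in_high_dimension_fin α κ η
  refine ⟨n, fun C => ?_⟩
  obtain ⟨l, c, hc⟩ := hn C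
  exact ⟨l.idxFun, l.proper, c, hc⟩

section GR

variable {α : Type}

/-- the colour depends on the word up to its first new letter -/
def Sd {κ : Type} {m : ℕ} (c : (Fin m → Option α) → κ) : Prop :=
  ∀ (j : Fin m) (y y' : Fin m → Option α), y j = none → y' j = none →
    (∀ i < j, y i = y' i ∧ y i ≠ none) → c y = c y'

theorem S_lem [Finite α] : ∀ (m : ℕ) (κ : Type) [Finite κ], ∃ M : ℕ,
    ∀ c : (Fin M → Option α) → κ, ∃ U : Fin M → α ⊕ Fin m, Pr U ∧
      Sd (fun y => c (ap (ext U) y)) := by
  intro m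
  induction m with
  | zero =>
    intro κ _
    exact ⟨0, fun c => ⟨fun i => i.elim0, fun j => j.elim0, fun j => j.elim0⟩⟩
  | succ m ih =>
    intro κ _
    obtain ⟨M'', hM''⟩ := ih (α → κ)
    obtain ⟨n, hn⟩ := HJ (Option α) κ (Fin M'')
    refine ⟨n + 1, fun c => ?_⟩
    obtain ⟨W, hW, c₀, hc₀⟩ := hn (fun v => c (Fin.cons none v))
    set τ : Option α ⊕ Fin M'' → α ⊕ Fin (M'' + 1) := fun o => match o with
      | Sum.inl none => Sum.inr 0
      | Sum.inl (some b) => Sum.inl b
      | Sum.inr j => Sum.inr j.succ with hτ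
    set U₁ : Fin (n + 1) → α ⊕ Fin (M'' + 1) := Fin.cons (Sum.inr 0) (fun i => τ (W i)) with hU₁
    have hU₁p : Pr U₁ := by
      intro j
      refine Fin.cases ?_ (fun j => ?_) j
      · exact ⟨0, rfl⟩
      · obtain ⟨i, hi⟩ := hW j
        refine ⟨i.succ, ?_⟩
        show τ (W i) = _
        rw [hi]
    have hnone : ∀ v : Fin M'' → Option α, ap (ext U₁) (Fin.cons none v) = Fin.cons none (ap W v) := by
      intro v
      funext i
      refine Fin.cases ?_ (fun i => ?_) i
      · rfl
      · show Sum.elim id (Fin.cons none v : Fin (M'' + 1) → Option α) (Sum.map some id (τ (W i))) =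
          Sum.elim id v (W i)
        rcases W i with (_ | b) | j <;> rfl
    obtain ⟨U₂, hU₂p, hU₂⟩ := hM'' (fun v b => c (ap (ext U₁) (Fin.cons (some b) v)))
    set U₃ : Fin (M'' + 1) → α ⊕ Fin (m + 1) :=
      Fin.cons (Sum.inr 0) (fun j => Sum.map id Fin.succ (U₂ j)) with hU₃
    have hU₃p : Pr U₃ := by
      intro j
      refine Fin.cases ?_ (fun j => ?_) j
      · exact ⟨0, rfl⟩
      · obtain ⟨i, hi⟩ := hU₂p j
        refine ⟨i.succ, ?_⟩
        show Sum.map id Fin.succ (U₂ i) = _
        rw [hi]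
        rfl
    have happ : ∀ y : Fin (m + 1) → Option α, ap (ext U₃) y =
        Fin.cons (y 0) (ap (ext U₂) (fun i => y i.succ)) := by
      intro y
      funext i
      refine Fin.cases ?_ (fun i => ?_) i
      · rfl
      · show Sum.elim id y (Sum.map some id (Sum.map id Fin.succ (U₂ i))) =
          Sum.elim id (fun i => y i.succ) (Sum.map some id (U₂ i))
        rcases U₂ i with b | j <;> rfl
    refine ⟨cp U₁ U₃, Pr_cp hU₁p hU₃p, ?_⟩
    intro j y y' hy hy' hpre
    simp only
    rw [ext_cp, ap_cp, ap_cp, happ, happ]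
    revert hy hy' hpre
    refine Fin.cases ?_ (fun j => ?_) j
    · intro hy hy' _
      rw [hy, hy', hnone, hnone]
      exact (hc₀ _).trans (hc₀ _).symm
    · intro hy hy' hpre
      obtain ⟨h0, h0'⟩ := hpre 0 (Fin.succ_pos j)
      obtain ⟨b, hb⟩ := Option.ne_none_iff_exists'.1 h0'
      have hb' : y' 0 = some b := by rw [← h0, hb]
      rw [hb, hb']
      have h := hU₂ j (fun i => y i.succ) (fun i => y' i.succ) hy hy'
        (fun i hi => hpre i.succ (Fin.succ_lt_succ_iff.2 hi))
      exact congrFun h b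

theorem P_lem [Finite α] [Nonempty α] : ∀ (m : ℕ) (κ : Type) [Finite κ], ∃ M : ℕ,
    ∀ c : (Fin M → Option α) → κ, Sd c → ∃ U : Fin M → α ⊕ Fin m, Pr U ∧
      ∃ h : Fin m → κ, ∀ (j : Fin m) (y : Fin m → Option α), y j = none → (∀ i < j, y i ≠ none) →
        c (ap (ext U) y) = h j := by
  classical
  intro m
  induction m with
  | zero =>
    intro κ _
    exact ⟨0, fun c _ => ⟨fun i => i.elim0, fun j => j.elim0, fun j => j.elim0, fun j => j.elim0⟩⟩
  | succ m ih =>
    intro κ _
    obtain ⟨M'', hM''⟩ := ih κ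
    obtain ⟨n, hn⟩ := HJ α ((Fin M'' → Option α) → κ) Unit
    refine ⟨n + M'', fun c hc => ?_⟩
    obtain ⟨L, hL, C₀, hC₀⟩ := hn (fun x v => c (Fin.append (fun i => some (x i)) v))
    have a₀ : α := Classical.arbitrary α
    have hC₀' : ∀ (a : α) (v : Fin M'' → Option α),
        c (Fin.append (fun i => some (ap L (fun _ => a) i)) v) = C₀ v := fun a v =>
      congrFun (hC₀ (fun _ => a)) v
    have hSd : Sd C₀ := by
      intro j y y' hy hy' hpre
      rw [← hC₀' a₀ y, ← hC₀' a₀ y']
      apply hc (Fin.natAdd n j)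
      · rw [Fin.append_right]
        exact hy
      · rw [Fin.append_right]
        exact hy'
      · intro i
        refine Fin.addCases (fun i => ?_) (fun i => ?_) i
        · intro _
          rw [Fin.append_left, Fin.append_left]
          exact ⟨rfl, by simp⟩
        · intro hi
          rw [Fin.append_right, Fin.append_right]
          exact hpre i (by
            rw [Fin.lt_def] at hi ⊢
            simp only [Fin.val_natAdd] at hi
            omega)
    obtain ⟨U₂, hU₂p, h₂, hU₂⟩ := hM'' C₀ hSd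
    set U : Fin (n + M'') → α ⊕ Fin (m + 1) :=
      Fin.append (fun i => Sum.map id (fun _ => (0 : Fin (m + 1))) (L i))
        (fun j => Sum.map id Fin.succ (U₂ j)) with hU
    have hUp : Pr U := by
      intro j
      refine Fin.cases ?_ (fun j => ?_) j
      · obtain ⟨i, hi⟩ := hL ()
        refine ⟨Fin.castAdd M'' i, ?_⟩
        rw [hU, Fin.append_left, hi]
        rfl
      · obtain ⟨i, hi⟩ := hU₂p j
        refine ⟨Fin.natAdd n i, ?_⟩
        rw [hU, Fin.append_right, hi]
        rfl
    have happ : ∀ y : Fin (m + 1) → Option α, ap (ext U) y =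
        Fin.append (fun i => Sum.elim some (fun _ => y 0) (L i))
          (ap (ext U₂) (fun i => y i.succ)) := by
      intro y
      funext i
      refine Fin.addCases (fun i => ?_) (fun i => ?_) i
      · rw [Fin.append_left]
        unfold ap ext
        rw [hU, Fin.append_left]
        rcases L i with b | u <;> rfl
      · rw [Fin.append_right]
        unfold ap ext
        rw [hU, Fin.append_right]
        rcases U₂ i with b | u <;> rfl
    set h₀ : κ := c (Fin.append (fun i => Sum.elim some (fun _ => none) (L i)) (fun _ => none)) with hh₀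
    refine ⟨U, hUp, Fin.cons h₀ h₂, ?_⟩
    intro j y hy hpre
    rw [happ]
    revert hy hpre
    refine Fin.cases ?_ (fun j => ?_) j
    · intro hy _
      rw [Fin.cons_zero, hh₀, hy]
      -- the first wildcard
      obtain ⟨i₀, hi₀, hmin⟩ : ∃ i₀ : Fin n, L i₀ = Sum.inr () ∧ ∀ i < i₀, L i ≠ Sum.inr () := by
        obtain ⟨i, hi⟩ := hL ()
        have hne : (univ.filter fun i => L i = Sum.inr ()).Nonempty := ⟨i, by simp [hi]⟩
        refine ⟨(univ.filter fun i => L i = Sum.inr ()).min' hne, ?_, ?_⟩
        · exact (mem_filter.1 (min'_mem _ hne)).2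
        · intro i' hi' hcon
          have := min'_le (univ.filter fun i => L i = Sum.inr ()) i' (by simp [hcon])
          exact absurd hi' (not_lt.2 this)
      apply hc (Fin.castAdd M'' i₀)
      · rw [Fin.append_left, hi₀]
        rfl
      · rw [Fin.append_left, hi₀]
        rfl
      · intro i
        refine Fin.addCases (fun i => ?_) (fun i => ?_) i
        · intro hi
          rw [Fin.append_left, Fin.append_left]
          have hlt : i < i₀ := by
            rw [Fin.lt_def] at hi ⊢
            simpa using hi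
          have := hmin i hlt
          rcases hLi : L i with b | u
          · exact ⟨rfl, by simp⟩
          · exact absurd hLi this
        · intro hi
          exfalso
          rw [Fin.lt_def] at hi
          simp only [Fin.val_natAdd, Fin.val_castAdd] at hi
          have := i₀.2
          omega
    · intro hy hpre
      obtain ⟨a, ha⟩ := Option.ne_none_iff_exists'.1 (hpre 0 (Fin.succ_pos j))
      rw [ha, Fin.cons_succ]
      have h1 : (fun i => Sum.elim some (fun _ => some a) (L i)) =
          fun i => some (ap L (fun _ => a) i) := by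
        funext i
        unfold ap
        rcases L i with b | u <;> rfl
      rw [h1, hC₀' a]
      exact hU₂ j _ hy (fun i hi => hpre i.succ (Fin.succ_lt_succ_iff.2 hi))

/-- selection of parameters -/
theorem sel_lem [Nonempty α] {p q : ℕ} (e : Fin p → Fin q) (he : Function.Injective e) :
    ∃ E : Fin q → α ⊕ Fin p, Pr E ∧ ∀ y : Fin p → Option α, (∃ j, y j = none) →
      ∃ l, ap (ext E) y (e l) = none ∧ ∀ i < e l, ap (ext E) y i ≠ none := by
  classical
  obtain ⟨E, hE1, hE2⟩ : ∃ E : Fin q → α ⊕ Fin p, (∀ l, E (e l) = Sum.inr l) ∧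
      ∀ i, (∀ l, e l ≠ i) → ∃ a, E i = Sum.inl a := by
    refine ⟨fun i => if h : ∃ l, e l = i then Sum.inr h.choose else Sum.inl (Classical.arbitrary α),
      fun l => ?_, fun i hi => ?_⟩
    · have h : ∃ l', e l' = e l := ⟨l, rfl⟩
      show (if h : ∃ l', e l' = e l then Sum.inr h.choose else Sum.inl (Classical.arbitrary α)) = _
      rw [dif_pos h]
      exact congrArg Sum.inr (he h.choose_spec)
    · refine ⟨Classical.arbitrary α, ?_⟩
      show (if h : ∃ l', e l' = i then Sum.inr h.choose else Sum.inl (Classical.arbitrary α)) = _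
      rw [dif_neg]
      rintro ⟨l, hl⟩
      exact hi l hl
  refine ⟨E, fun l => ⟨e l, hE1 l⟩, fun y hy => ?_⟩
  obtain ⟨j, hj⟩ := hy
  have hval : ∀ l, ap (ext E) y (e l) = y l := by
    intro l
    unfold ap ext
    rw [hE1 l]
    rfl
  have hne : (univ.filter fun i => ap (ext E) y i = none).Nonempty := ⟨e j, by simp [hval, hj]⟩
  set i₀ := (univ.filter fun i => ap (ext E) y i = none).min' hne with hi₀
  have h1 : ap (ext E) y i₀ = none := (mem_filter.1 (min'_mem _ hne)).2
  obtain ⟨l, hl⟩ : ∃ l, e l = i₀ := by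
    by_contra hcon
    push Not at hcon
    obtain ⟨a, ha⟩ := hE2 i₀ hcon
    have : ap (ext E) y i₀ = some a := by
      unfold ap ext
      rw [ha]
      rfl
    rw [this] at h1
    exact absurd h1 (by simp)
  refine ⟨l, by rw [hl]; exact h1, fun i hi hcon => ?_⟩
  have := min'_le (univ.filter fun i => ap (ext E) y i = none) i (by simp [hcon])
  rw [hl] at hi
  exact absurd hi (not_lt.2 this)

/-- the Ramsey theorem for lines: if every subspace of dimension `M₀` has a good line, then some
subspace of dimension `n` has only good lines -/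
theorem GR [Finite α] [Nonempty α] (M₀ n : ℕ) : ∃ M : ℕ, ∀ good : Set (Fin M → Option α),
    (∀ U : Fin M → α ⊕ Fin M₀, Pr U → ∃ y : Fin M₀ → Option α, (∃ j, y j = none) ∧
      ap (ext U) y ∈ good) →
    ∃ U : Fin M → α ⊕ Fin n, Pr U ∧ ∀ y : Fin n → Option α, (∃ j, y j = none) →
      ap (ext U) y ∈ good := by
  classical
  obtain ⟨M₁, hM₁⟩ := P_lem (α := α) (n + M₀) Bool
  obtain ⟨M, hM⟩ := S_lem (α := α) M₁ Bool
  refine ⟨M, fun good hgood => ?_⟩
  obtain ⟨U₁, hU₁p, hU₁⟩ := hM (fun w => decide (w ∈ good))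
  obtain ⟨U₂, hU₂p, h, hU₂⟩ := hM₁ _ hU₁
  have key : ∀ (j : Fin (n + M₀)) (y : Fin (n + M₀) → Option α), y j = none →
      (∀ i < j, y i ≠ none) → decide (ap (ext (cp U₁ U₂)) y ∈ good) = h j := by
    intro j y hy hpre
    rw [ext_cp, ap_cp]
    exact hU₂ j y hy hpre
  have hVp := Pr_cp hU₁p hU₂p
  by_cases hcard : M₀ ≤ (univ.filter fun j => h j = false).card
  · exfalso
    obtain ⟨T, hT, hTc⟩ := exists_subset_card_eq hcard
    obtain ⟨E, hEp, hE⟩ := sel_lem (α := α) (fun l : Fin M₀ => ((T.orderIsoOfFin hTc l : T) : Fin (n + M₀)))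
      (fun a b hab => (T.orderIsoOfFin hTc).injective (Subtype.ext hab))
    obtain ⟨y, hy, hyg⟩ := hgood (cp (cp U₁ U₂) E) (Pr_cp hVp hEp)
    obtain ⟨l, hl1, hl2⟩ := hE y hy
    have h1 := key _ _ hl1 hl2
    have h2 : h ((T.orderIsoOfFin hTc l : T) : Fin (n + M₀)) = false :=
      (mem_filter.1 (hT (T.orderIsoOfFin hTc l).2)).2
    rw [ext_cp (cp U₁ U₂) E, ap_cp] at hyg
    rw [h2, decide_eq_false_iff_not] at h1
    exact h1 hyg
  · push Not at hcard
    have hcard2 : n ≤ (univ.filter fun j => h j = true).card := by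
      have h1 : (univ.filter fun j => h j = true).card + (univ.filter fun j => h j = false).card =
          n + M₀ := by
        have := card_filter_add_card_filter_not (s := (univ : Finset (Fin (n + M₀)))) (fun j => h j = true)
        simp only [Bool.not_eq_true, card_univ, Fintype.card_fin] at this
        exact this
      omega
    obtain ⟨T, hT, hTc⟩ := exists_subset_card_eq hcard2
    obtain ⟨E, hEp, hE⟩ := sel_lem (α := α) (fun l : Fin n => ((T.orderIsoOfFin hTc l : T) : Fin (n + M₀)))
      (fun a b hab => (T.orderIsoOfFin hTc).injective (Subtype.ext hab))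
    refine ⟨cp (cp U₁ U₂) E, Pr_cp hVp hEp, fun y hy => ?_⟩
    obtain ⟨l, hl1, hl2⟩ := hE y hy
    have h1 := key _ _ hl1 hl2
    have h2 : h ((T.orderIsoOfFin hTc l : T) : Fin (n + M₀)) = true :=
      (mem_filter.1 (hT (T.orderIsoOfFin hTc l).2)).2
    rw [ext_cp (cp U₁ U₂) E, ap_cp]
    rw [h2, decide_eq_true_iff] at h1
    exact h1

end GR

end Pool.Agent.H602R3.DHJ
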