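import Mathlib
import Pool.Agent.H602R3.DHJ.Base

/-!
Density Hales-Jewett: insensitive sets are almost unions of disjoint subspaces.
-/

namespace Pool.Agent.H602R3.DHJ

open Finset

/-- insensitive to changes between the letter `a` and the new letter -/
def Ins {ι α : Type} (a : α) (D : Set (ι → Option α)) : Prop :=
  ∀ x y : ι → Option α, (∀ i, (x i).getD a = (y i).getD a) → x ∈ D → y ∈ D

theorem Ins_pull {ι α η : Type} {a : α} {D : Set (ι → Option α)} (hD : Ins a D)
    (V : ι → Option α ⊕ η) : Ins a {x : η → Option α | ap V x ∈ D} := by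
  intro x y hxy hx
  refine hD _ _ (fun i => ?_) hx
  unfold ap
  rcases V i with b | j
  · rfl
  · exact hxy j

theorem Ins_compl {ι α : Type} {a : α} {D : Set (ι → Option α)} (hD : Ins a D) : Ins a Dᶜ := by
  intro x y hxy hx hy
  exact hx (hD y x (fun i => (hxy i).symm) hy)

theorem Ins_univ {ι α : Type} {a : α} : Ins a (Set.univ : Set (ι → Option α)) :=
  fun _ _ _ _ => Set.mem_univ _

/-! ### Masks -/

section Mask

variable {ι α : Type}

/-- the mask involution -/
def msk (p : (ι → Option α) × (ι → α)) : (ι → Option α) × (ι → α) :=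
  (fun i => (p.1 i).map (fun _ => p.2 i), fun i => (p.1 i).getD (p.2 i))

theorem msk_inv : Function.Involutive (msk (ι := ι) (α := α)) := by
  rintro ⟨u, w⟩
  unfold msk
  ext i
  · simp only
    rcases u i with _ | c <;> simp
  · simp only
    rcases u i with _ | c <;> simp

theorem av_mask [Fintype ι] [DecidableEq ι] [Fintype α] [Nonempty α] (g : (ι → Option α) → ℝ) :
    av g = av (fun u : ι → Option α => av (fun w : ι → α => g (fun i => (u i).map (fun _ => w i)))) := by
  have h1 := av_equiv (msk_inv (ι := ι) (α := α)).toPerm (fun p : (ι → Option α) × (ι → α) => g p.1)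
  rw [av_prod, av_prod] at h1
  simp only [av_const] at h1
  exact h1.symm

theorem av_prodFun [Fintype ι] [DecidableEq ι] {β : Type} [Fintype β] (g : ι → β → ℝ) :
    av (fun u : ι → β => ∏ i, g i (u i)) = ∏ i, av (g i) := by
  unfold av
  rw [prod_div_distrib, Fintype.card_fun]
  have h := Finset.prod_univ_sum (fun _ : ι => (univ : Finset β)) g
  rw [Fintype.piFinset_univ] at h
  rw [h, prod_const, card_univ]
  push_cast
  rfl

theorem dn_none [Fintype ι] [DecidableEq ι] [Fintype α] (T : Finset ι) :
    dn {u : ι → Option α | ∀ i ∈ T, u i = none} = (1 / (Fintype.card α + 1 : ℝ)) ^ T.card := by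
  classical
  have h1 : ∀ u : ι → Option α, Set.indicator {u : ι → Option α | ∀ i ∈ T, u i = none}
      (fun _ => (1 : ℝ)) u = ∏ i, (if i ∈ T then (if u i = none then (1 : ℝ) else 0) else 1) := by
    intro u
    by_cases h : ∀ i ∈ T, u i = none
    · rw [Set.indicator_of_mem (by exact h)]
      symm
      apply prod_eq_one
      intro i _
      by_cases hi : i ∈ T
      · rw [if_pos hi, if_pos (h i hi)]
      · rw [if_neg hi]
    · rw [Set.indicator_of_notMem (by exact h)]
      push Not at h
      obtain ⟨i, hi, hui⟩ := h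
      symm
      apply prod_eq_zero (mem_univ i)
      rw [if_pos hi, if_neg hui]
  unfold dn
  rw [show Set.indicator {u : ι → Option α | ∀ i ∈ T, u i = none} (fun _ => (1 : ℝ)) =
    fun u => ∏ i, (if i ∈ T then (if u i = none then (1 : ℝ) else 0) else 1) from funext h1]
  rw [av_prodFun (fun i (o : Option α) => if i ∈ T then (if o = none then (1 : ℝ) else 0) else 1)]
  have h2 : ∀ i, av (fun o : Option α => if i ∈ T then (if o = none then (1 : ℝ) else 0) else 1) =
      if i ∈ T then (1 / (Fintype.card α + 1 : ℝ)) else 1 := by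
    intro i
    by_cases hi : i ∈ T
    · simp only [hi, if_true]
      unfold av
      rw [Fintype.card_option]
      simp
    · simp only [hi, if_false]
      exact av_const 1
  rw [prod_congr rfl fun i _ => h2 i]
  rw [prod_ite, prod_const, prod_const_one, mul_one]
  congr 2
  ext i
  simp

end Mask

/-- dense insensitive sets contain subspaces -/
theorem exists_sub {α : Type} [Fintype α] [DecidableEq α] [Nonempty α] (hM : MD α) (a : α)
    (m L : ℕ) {η : ℝ} (hη : 0 < η) : ∃ N₀ s : ℕ, L ≤ N₀ ∧ 1 ≤ N₀ ∧ 1 ≤ s ∧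
    ∀ D : Set (Fin N₀ × Fin s → Option α), Ins a D → η ≤ dn D →
    ∃ V : Fin N₀ × Fin s → Option α ⊕ Fin m, Pr V ∧ ∀ x, ap V x ∈ D := by
  classical
  obtain ⟨N₁, hN₁⟩ := hM m (η / 2) (by linarith)
  set N₀ : ℕ := max (max N₁ L) 1 with hN₀
  obtain ⟨s₀, hs₀⟩ : ∃ s₀ : ℕ, (N₀ : ℝ) * (1 / 2) ^ s₀ < η / 4 := by
    have h := (tendsto_pow_atTop_nhds_zero_of_lt_one (r := (1 / 2 : ℝ)) (by norm_num)
      (by norm_num)).const_mul (N₀ : ℝ)
    rw [mul_zero] at h
    exact (h.eventually (gt_mem_nhds (show (0 : ℝ) < η / 4 by linarith))).exists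
  set s : ℕ := s₀ + 1 with hs
  refine ⟨N₀, s, (le_max_right _ _).trans (le_max_left _ _), le_max_right _ _, by omega,
    fun D hD hdn => ?_⟩
  -- few blocks of new letters
  have hk : (1 / (Fintype.card α + 1 : ℝ)) ≤ 1 / 2 := by
    have : (1 : ℝ) ≤ Fintype.card α := by exact_mod_cast Fintype.card_pos
    apply one_div_le_one_div_of_le <;> linarith
  have hlowb : ∀ b : Fin N₀, dn {u : Fin N₀ × Fin s → Option α | ∀ j, u (b, j) = none} ≤
      (1 / 2) ^ s := by
    intro b
    have h := dn_none (ι := Fin N₀ × Fin s) (α := α) (univ.image fun j : Fin s => (b, j))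
    rw [card_image_of_injective _ (fun i j h => (Prod.mk.inj h).2), card_univ, Fintype.card_fin] at h
    have e : {u : Fin N₀ × Fin s → Option α | ∀ i ∈ univ.image (fun j : Fin s => (b, j)), u i = none} =
        {u : Fin N₀ × Fin s → Option α | ∀ j, u (b, j) = none} := by
      ext u
      simp
    rw [e] at h
    rw [h]
    exact pow_le_pow_left₀ (by positivity) hk s
  set low : Set (Fin N₀ × Fin s → Option α) := {u | ∃ b, ∀ j, u (b, j) = none} with hlow
  have hlowdn : dn low ≤ η / 4 := by
    calc dn low ≤ ∑ b : Fin N₀, dn {u : Fin N₀ × Fin s → Option α | ∀ j, u (b, j) = none} := by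
          unfold dn
          rw [← av_sum]
          apply av_mono
          intro u
          by_cases hu : u ∈ low
          · obtain ⟨b, hb⟩ := hu
            rw [Set.indicator_of_mem (show u ∈ low from ⟨b, hb⟩)]
            calc (1 : ℝ) = Set.indicator {u : Fin N₀ × Fin s → Option α | ∀ j, u (b, j) = none}
                  (fun _ => (1 : ℝ)) u := by rw [Set.indicator_of_mem (by exact hb)]
              _ ≤ _ := single_le_sum (f := fun b => Set.indicator
                  {u : Fin N₀ × Fin s → Option α | ∀ j, u (b, j) = none} (fun _ => (1 : ℝ)) u)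
                  (fun b _ => Set.indicator_nonneg (fun _ _ => zero_le_one) u) (mem_univ b)
          · rw [Set.indicator_of_notMem hu]
            exact sum_nonneg fun b _ => Set.indicator_nonneg (fun _ _ => zero_le_one) u
      _ ≤ ∑ _b : Fin N₀, (1 / 2 : ℝ) ^ s := sum_le_sum fun b _ => hlowb b
      _ = N₀ * (1 / 2) ^ s := by rw [sum_const, card_univ, Fintype.card_fin, nsmul_eq_mul]
      _ ≤ N₀ * (1 / 2) ^ s₀ := by
          apply mul_le_mul_of_nonneg_left _ (by positivity)
          exact pow_le_pow_of_le_one (by norm_num) (by norm_num) (by omega)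
      _ ≤ η / 4 := hs₀.le
  -- a good mask
  obtain ⟨u, hu1, hu2⟩ : ∃ u : Fin N₀ × Fin s → Option α, u ∉ low ∧
      η / 2 ≤ dn {w : Fin N₀ × Fin s → α | (fun i => (u i).map (fun _ => w i)) ∈ D} := by
    by_contra hcon
    push Not at hcon
    have h1 : dn D ≤ av (fun u => Set.indicator low (fun _ => (1 : ℝ)) u + η / 2) := by
      unfold dn
      rw [av_mask]
      apply av_mono
      intro u
      by_cases hu : u ∈ low
      · rw [Set.indicator_of_mem hu]
        have : av (fun w : Fin N₀ × Fin s → α => D.indicator (fun _ => (1 : ℝ))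
            (fun i => (u i).map (fun _ => w i))) ≤ 1 := dn_le_one
              {w : Fin N₀ × Fin s → α | (fun i => (u i).map (fun _ => w i)) ∈ D}
        linarith
      · rw [Set.indicator_of_notMem hu, zero_add]
        exact (hcon u hu).le
    rw [av_add, av_const] at h1
    have h2 : av (fun u => Set.indicator low (fun _ => (1 : ℝ)) u) = dn low := rfl
    rw [h2] at h1
    linarith
  -- restrict to the unmasked positions
  set R := {i : Fin N₀ × Fin s // u i ≠ none} with hR
  have hRcard : N₁ ≤ Fintype.card R := by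
    have hex : ∀ b : Fin N₀, ∃ j : Fin s, u (b, j) ≠ none := by
      intro b
      by_contra hcon
      push Not at hcon
      exact hu1 ⟨b, hcon⟩
    choose j hj using hex
    have hinj : Function.Injective (fun b : Fin N₀ => (⟨(b, j b), hj b⟩ : R)) := by
      intro b b' h
      exact congrArg (fun r : R => r.1.1) h
    have := Fintype.card_le_of_injective _ hinj
    rw [Fintype.card_fin] at this
    exact le_trans (le_trans (le_max_left _ _) (le_max_left _ _)) this
  set e : Fin N₀ × Fin s ≃ R ⊕ {i : Fin N₀ × Fin s // ¬ u i ≠ none} :=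
    (Equiv.sumCompl (fun i => u i ≠ none)).symm with he
  set B : Set (Fin N₀ × Fin s → α) := {w | (fun i => (u i).map (fun _ => w i)) ∈ D} with hB
  rw [← dn_equivWords B e] at hu2
  set B' : Set (R ⊕ {i : Fin N₀ × Fin s // ¬ u i ≠ none} → α) := {x | x ∘ e ∈ B} with hB'
  obtain ⟨z, hz⟩ : ∃ z : {i : Fin N₀ × Fin s // ¬ u i ≠ none} → α,
      η / 2 ≤ dn {x : R → α | Sum.elim x z ∈ B'} := by
    unfold dn at hu2
    rw [av_sumWords, av_comm] at hu2
    obtain ⟨z, hz⟩ := exists_le_av (fun z : {i : Fin N₀ × Fin s // ¬ u i ≠ none} → α =>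
      av (fun x : R → α => B'.indicator (fun _ => (1 : ℝ)) (Sum.elim x z)))
    exact ⟨z, hu2.trans hz⟩
  obtain ⟨V, hV, hVB⟩ := hN₁ R hRcard _ hz
  obtain ⟨V', hV'1, hV'2⟩ : ∃ V' : Fin N₀ × Fin s → Option α ⊕ Fin m,
      (∀ i (h : u i ≠ none), V' i = ext V ⟨i, h⟩) ∧ ∀ i, u i = none → V' i = Sum.inl none :=
    ⟨fun i => if h : u i ≠ none then ext V ⟨i, h⟩ else Sum.inl none, fun i h => dif_pos h,
      fun i h => dif_neg (by simpa using h)⟩
  refine ⟨V', ?_, ?_⟩
  · intro j
    obtain ⟨i, hi⟩ := Pr_ext hV j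
    exact ⟨i.1, (hV'1 i.1 i.2).trans hi⟩
  · intro x
    refine hD _ _ (fun i => ?_) (hVB (fun j => (x j).getD a))
    by_cases h : u i ≠ none
    · have e1 : e i = Sum.inl ⟨i, h⟩ := by
        rw [he, Equiv.symm_apply_eq]
        rfl
      obtain ⟨c, hc⟩ := Option.ne_none_iff_exists'.1 h
      simp only [Function.comp]
      rw [e1, Sum.elim_inl]
      have e2 : ap V' x i = ap (ext V) x ⟨i, h⟩ := by
        unfold ap
        rw [hV'1 i h]
      rw [e2, hc, Option.map_some, Option.getD_some]
      show Sum.elim id (fun j => (x j).getD a) (V ⟨i, h⟩) =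
        (Sum.elim id x (Sum.map some id (V ⟨i, h⟩))).getD a
      rcases V ⟨i, h⟩ with b | j <;> rfl
    · push Not at h
      have e2 : ap V' x i = none := by
        unfold ap
        rw [hV'2 i h]
        rfl
      rw [e2, h]
      rfl

end Pool.Agent.H602R3.DHJ
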