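import Mathlib
import Pool.Agent.H602R3.DHJ.Ins

/-!
Density Hales-Jewett: functions whose averages on subspaces are small have small averages on
intersections of insensitive sets.
-/

namespace Pool.Agent.H602R3.DHJ

open Finset

/-- averages over the range of an injective map -/
theorem av_range {U X : Type*} [Fintype U] [Nonempty U] [Fintype X] (φ : U → X)
    (hφ : Function.Injective φ) (g : X → ℝ) :
    av ((Set.range φ).indicator g) =
      ((Fintype.card U : ℝ) / Fintype.card X) * av (fun u => g (φ u)) := by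
  classical
  unfold av
  have h1 : ∑ x, (Set.range φ).indicator g x = ∑ u, g (φ u) := by
    have h2 : ∑ x ∈ univ.image φ, (Set.range φ).indicator g x = ∑ x, (Set.range φ).indicator g x := by
      apply sum_subset (subset_univ _)
      intro x _ hx
      rw [Set.indicator_of_notMem]
      rintro ⟨u, rfl⟩
      exact hx (mem_image_of_mem _ (mem_univ u))
    rw [← h2, sum_image (fun a _ b _ h => hφ h)]
    refine sum_congr rfl fun u _ => ?_
    rw [Set.indicator_of_mem (Set.mem_range_self u)]
  rw [h1]
  have hU : (Fintype.card U : ℝ) ≠ 0 := by exact_mod_cast Fintype.card_ne_zero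
  rcases eq_or_ne (Fintype.card X : ℝ) 0 with hX | hX
  · rw [hX, div_zero, div_zero, zero_mul]
  · field_simp

section Step

variable {α : Type} [Fintype α] [DecidableEq α] [Nonempty α]

/-- the block recursion -/
theorem block_rec (a : α) (m : ℕ) {η : ℝ} (hη : 0 < η) (K : Type) [Fintype K] [DecidableEq K]
    (hsub : ∀ D : Set (K → Option α), Ins a D → η / 2 ≤ dn D →
      ∃ V : K → Option α ⊕ Fin m, Pr V ∧ ∀ x, ap V x ∈ D)
    {θ : ℝ} (hθ0 : 0 ≤ θ) (hθ1 : θ ≤ 1)
    (hθ : θ ≤ ((Fintype.card (Fin m → Option α) : ℝ) / Fintype.card (K → Option α)) * (η / 2)) :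
    ∀ (r : ℕ) (ι : Type) [Fintype ι] [DecidableEq ι], Fintype.card ι = Fintype.card K * r →
    ∀ (f : (ι → Option α) → ℝ) (κ : ℝ), 0 ≤ κ → (∀ x, f x ≤ 1) →
    (∀ V : ι → Option α ⊕ Fin m, Pr V → av (fun x => f (ap V x)) ≤ κ) →
    ∀ D : Set (ι → Option α), Ins a D →
      av (D.indicator f) ≤ κ * dn D + η + (1 - θ) ^ r * dn D := by
  classical
  intro r
  induction r with
  | zero =>
    intro ι _ _ _ f κ hκ hf _ D _
    have h1 : av (D.indicator f) ≤ dn D := av_mono fun x => by
      by_cases hx : x ∈ D
      · rw [Set.indicator_of_mem hx, Set.indicator_of_mem hx]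
        exact hf x
      · rw [Set.indicator_of_notMem hx, Set.indicator_of_notMem hx]
    have h2 := mul_nonneg hκ (dn_nonneg D)
    rw [pow_zero]
    linarith
  | succ r ih =>
    intro ι _ _ hι f κ hκ hf hV D hD
    have hpow : 0 ≤ (1 - θ) ^ (r + 1) := pow_nonneg (by linarith) _
    have hpow' : 0 ≤ (1 - θ) ^ r := pow_nonneg (by linarith) _
    by_cases hsmall : dn D < η
    · have h1 : av (D.indicator f) ≤ dn D := av_mono fun x => by
        by_cases hx : x ∈ D
        · rw [Set.indicator_of_mem hx, Set.indicator_of_mem hx]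
          exact hf x
        · rw [Set.indicator_of_notMem hx, Set.indicator_of_notMem hx]
      have h2 := mul_nonneg hκ (dn_nonneg D)
      have h3 := mul_nonneg hpow (dn_nonneg D)
      linarith
    push Not at hsmall
    -- split the index set
    obtain ⟨e⟩ : Nonempty (ι ≃ K ⊕ Fin (Fintype.card K * r)) := by
      refine ⟨Fintype.equivOfCardEq ?_⟩
      rw [Fintype.card_sum, Fintype.card_fin, hι]
      ring
    set J := Fin (Fintype.card K * r) with hJ
    -- transfer
    set f' : (K ⊕ J → Option α) → ℝ := fun x => f (x ∘ e) with hf'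
    set D1 : Set (K ⊕ J → Option α) := {x | x ∘ e ∈ D} with hD1
    have htr : av (D1.indicator f') = av (D.indicator f) :=
      av_equiv (e.arrowCongr (Equiv.refl (Option α))).symm (D.indicator f)
    have hdnD : dn D1 = dn D := dn_equivWords D e
    have hD1ins : Ins a D1 := fun x y hxy hx => hD _ _ (fun i => hxy (e i)) hx
    have hf'1 : ∀ x, f' x ≤ 1 := fun x => hf _
    have hV' : ∀ V : K ⊕ J → Option α ⊕ Fin m, Pr V → av (fun x => f' (ap V x)) ≤ κ := by
      intro V hVp
      exact hV (V ∘ e) (by
        intro j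
        obtain ⟨i, hi⟩ := hVp j
        exact ⟨e.symm i, by simpa using hi⟩)
    rw [← htr, ← hdnD]
    rw [← hdnD] at hsmall
    -- sections
    set sec : (J → Option α) → Set (K → Option α) := fun z => {x | Sum.elim x z ∈ D1} with hsec
    have hsecins : ∀ z, Ins a (sec z) := fun z x y hxy hx =>
      hD1ins _ _ (fun i => by rcases i with i | i; exacts [hxy i, rfl]) hx
    have hsec_congr : ∀ z z' : J → Option α, (∀ i, (z i).getD a = (z' i).getD a) → sec z = sec z' := by
      intro z z' h
      ext x
      constructor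
      · intro hx
        exact hD1ins _ _ (fun i => by rcases i with i | i; exacts [rfl, h i]) hx
      · intro hx
        exact hD1ins _ _ (fun i => by rcases i with i | i; exacts [rfl, (h i).symm]) hx
    have hsel : ∀ B : Set (K → Option α), ∃ V : K → Option α ⊕ Fin m,
        (Ins a B ∧ η / 2 ≤ dn B) → Pr V ∧ ∀ x, ap V x ∈ B := by
      intro B
      by_cases h : Ins a B ∧ η / 2 ≤ dn B
      · obtain ⟨V, hV⟩ := hsub B h.1 h.2
        exact ⟨V, fun _ => hV⟩
      · exact ⟨fun _ => Sum.inl none, fun h' => absurd h' h⟩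
    choose sel hsel using hsel
    set Z : Set (J → Option α) := {z | η / 2 ≤ dn (sec z)} with hZ
    set R : Set (K ⊕ J → Option α) := {w | w ∘ Sum.inr ∈ Z ∧
      w ∘ Sum.inl ∈ Set.range (ap (sel (sec (w ∘ Sum.inr))))} with hR
    have hRD : R ⊆ D1 := by
      rintro w ⟨h1, x, hx⟩
      have h2 := (hsel (sec (w ∘ Sum.inr)) ⟨hsecins _, h1⟩).2 x
      rw [hx] at h2
      have h3 : Sum.elim (w ∘ Sum.inl) (w ∘ Sum.inr) ∈ D1 := h2
      rwa [Sum.elim_comp_inl_inr] at h3
    set D2 : Set (K ⊕ J → Option α) := D1 \ R with hD2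
    set ρ : ℝ := (Fintype.card (Fin m → Option α) : ℝ) / Fintype.card (K → Option α) with hρ
    have hρ0 : 0 ≤ ρ := by positivity
    -- the contribution of `R`
    have hRsec : ∀ (g : (K ⊕ J → Option α) → ℝ) (z : J → Option α),
        av (fun x : K → Option α => R.indicator g (Sum.elim x z)) =
        Z.indicator (fun z => ρ * av (fun u => g (Sum.elim (ap (sel (sec z)) u) z))) z := by
      intro g z
      by_cases hz : z ∈ Z
      · rw [Set.indicator_of_mem hz]
        have hpr := (hsel (sec z) ⟨hsecins _, hz⟩).1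
        rw [hρ, ← av_range (ap (sel (sec z))) (fun x y h => ap_inj hpr h)
          (fun x => g (Sum.elim x z))]
        congr 1
        funext x
        by_cases hx : x ∈ Set.range (ap (sel (sec z)))
        · rw [Set.indicator_of_mem hx, Set.indicator_of_mem]
          exact ⟨hz, hx⟩
        · rw [Set.indicator_of_notMem hx, Set.indicator_of_notMem]
          rintro ⟨_, h⟩
          exact hx h
      · rw [Set.indicator_of_notMem hz]
        have : (fun x : K → Option α => R.indicator g (Sum.elim x z)) = fun _ => 0 := by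
          funext x
          rw [Set.indicator_of_notMem]
          rintro ⟨h, _⟩
          exact hz h
        rw [this]
        unfold av
        simp
    have hRav : av (R.indicator f') ≤ κ * dn R := by
      unfold dn
      rw [av_sumWords, av_comm, av_sumWords (R.indicator fun _ => (1 : ℝ)), av_comm (fun x z =>
        R.indicator (fun _ => (1 : ℝ)) (Sum.elim x z)), ← av_mul]
      apply av_mono
      intro z
      rw [hRsec, hRsec]
      by_cases hz : z ∈ Z
      · rw [Set.indicator_of_mem hz, Set.indicator_of_mem hz, av_const, mul_one, mul_comm κ]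
        apply mul_le_mul_of_nonneg_left _ hρ0
        have hpr := (hsel (sec z) ⟨hsecins _, hz⟩).1
        have h := hV' (fixR (sel (sec z)) z) (Pr_fixR hpr z)
        simp only [ap_fixR] at h
        exact h
      · rw [Set.indicator_of_notMem hz, Set.indicator_of_notMem hz, mul_zero]
    have hdnR : dn R = ρ * dn Z := by
      unfold dn
      rw [av_sumWords, av_comm, ← av_mul]
      congr 1
      funext z
      rw [hRsec]
      by_cases hz : z ∈ Z
      · rw [Set.indicator_of_mem hz, Set.indicator_of_mem hz, av_const]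
      · rw [Set.indicator_of_notMem hz, Set.indicator_of_notMem hz, mul_zero]
    have hZdn : η / 2 ≤ dn Z := by
      refine dn_large _ (fun z => dn_le_one _) ?_ (by linarith)
      have : dn D1 = av (fun z => dn (sec z)) := by
        unfold dn
        rw [av_sumWords, av_comm]
        rfl
      rw [← this]
      linarith
    -- the contribution of the rest
    have hsplit : ∀ g : (K ⊕ J → Option α) → ℝ, av (D1.indicator g) =
        av (D2.indicator g) + av (R.indicator g) := by
      intro g
      rw [← av_add]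
      congr 1
      funext x
      by_cases hx : x ∈ R
      · rw [Set.indicator_of_mem (hRD hx), Set.indicator_of_mem hx, Set.indicator_of_notMem, zero_add]
        exact fun h => h.2 hx
      · rw [Set.indicator_of_notMem hx, add_zero]
        by_cases hx1 : x ∈ D1
        · rw [Set.indicator_of_mem hx1, Set.indicator_of_mem]
          exact ⟨hx1, hx⟩
        · rw [Set.indicator_of_notMem hx1, Set.indicator_of_notMem]
          exact fun h => hx1 h.1
    have hdnsplit : dn D1 = dn D2 + dn R := hsplit _
    have hD2sec : ∀ x : K → Option α, Ins a {z : J → Option α | Sum.elim x z ∈ D2} := by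
      intro x z z' hzz hz
      refine ⟨hD1ins _ _ (fun i => by rcases i with i | i; exacts [rfl, hzz i]) hz.1, ?_⟩
      rintro ⟨h1, h2⟩
      refine hz.2 ⟨?_, ?_⟩
      · have h3 : z' ∈ Z := h1
        show z ∈ Z
        rw [hZ, Set.mem_ofPred_eq] at h3 ⊢
        rw [hsec_congr z z' hzz]
        exact h3
      · have h3 : x ∈ Set.range (ap (sel (sec z'))) := h2
        show x ∈ Set.range (ap (sel (sec z)))
        rw [hsec_congr z z' hzz]
        exact h3
    have hD2av : av (D2.indicator f') ≤ κ * dn D2 + η + (1 - θ) ^ r * dn D2 := by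
      have h1 : ∀ x : K → Option α, av (fun z : J → Option α => D2.indicator f' (Sum.elim x z)) ≤
          (κ + (1 - θ) ^ r) * dn {z : J → Option α | Sum.elim x z ∈ D2} + η := by
        intro x
        have h2 := ih J (by rw [Fintype.card_fin]) (fun z => f' (Sum.elim x z)) κ hκ
          (fun z => hf'1 _) (fun V hVp => by
            have h := hV' (fixL x V) (Pr_fixL hVp x)
            simp only [ap_fixL] at h
            exact h) _ (hD2sec x)
        have h3 : av (fun z : J → Option α => D2.indicator f' (Sum.elim x z)) =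
          av (Set.indicator {z : J → Option α | Sum.elim x z ∈ D2} fun z => f' (Sum.elim x z)) := rfl
        rw [h3]
        linarith
      have h4 : dn D2 = av (fun x : K → Option α => dn {z : J → Option α | Sum.elim x z ∈ D2}) := by
        unfold dn
        rw [av_sumWords]
        rfl
      rw [av_sumWords]
      calc _ ≤ av (fun x : K → Option α =>
            (κ + (1 - θ) ^ r) * dn {z : J → Option α | Sum.elim x z ∈ D2} + η) := av_mono h1
        _ = (κ + (1 - θ) ^ r) * dn D2 + η := by rw [av_add, av_const, av_mul, ← h4]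
        _ = _ := by ring
    -- put together
    have h5 : dn D2 ≤ (1 - θ) * dn D1 := by
      have h6 : θ * dn D1 ≤ dn R := by
        rw [hdnR]
        calc θ * dn D1 ≤ θ * 1 := mul_le_mul_of_nonneg_left (dn_le_one _) hθ0
          _ ≤ ρ * (η / 2) := by rw [mul_one]; exact hθ
          _ ≤ ρ * dn Z := mul_le_mul_of_nonneg_left hZdn hρ0
      linarith
    have h7 : (1 - θ) ^ r * dn D2 ≤ (1 - θ) ^ (r + 1) * dn D1 := by
      rw [pow_succ, mul_assoc]
      exact mul_le_mul_of_nonneg_left h5 hpow'
    rw [hsplit f']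
    have h8 : κ * dn D1 = κ * dn D2 + κ * dn R := by rw [hdnsplit]; ring
    linarith

/-- one insensitive set -/
theorem one_ins (hM : MD α) (a : α) (m : ℕ) {ε : ℝ} (hε : 0 < ε) : ∃ n : ℕ, m ≤ n ∧
    ∀ (f : (Fin n → Option α) → ℝ) (κ : ℝ), 0 ≤ κ → (∀ x, f x ≤ 1) →
    (∀ V : Fin n → Option α ⊕ Fin m, Pr V → av (fun x => f (ap V x)) ≤ κ) →
    ∀ D : Set (Fin n → Option α), Ins a D → av (D.indicator f) ≤ κ + ε := by
  classical
  obtain ⟨N₀, s, hL, hN₀, hs, hsub⟩ := exists_sub hM a m m (η := (ε / 2) / 2) (by linarith)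
  set K := Fin N₀ × Fin s with hK
  set ρ : ℝ := ((Fintype.card (Fin m → Option α) : ℝ) / Fintype.card (K → Option α)) * ((ε / 2) / 2)
    with hρ
  have hρ0 : 0 < ρ := by
    have h1 : (0 : ℝ) < Fintype.card (Fin m → Option α) := by exact_mod_cast Fintype.card_pos
    have h2 : (0 : ℝ) < Fintype.card (K → Option α) := by exact_mod_cast Fintype.card_pos
    positivity
  set θ : ℝ := min ρ 1 with hθ
  have hθ0 : 0 < θ := lt_min hρ0 one_pos
  obtain ⟨r, hr⟩ : ∃ r : ℕ, (1 - θ) ^ r < ε / 2 := by
    have h := tendsto_pow_atTop_nhds_zero_of_lt_one (r := 1 - θ) (by linarith [min_le_right ρ 1])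
      (by linarith)
    exact (h.eventually (gt_mem_nhds (show (0 : ℝ) < ε / 2 by linarith))).exists
  have hr' : (1 - θ) ^ (r + 1) < ε / 2 := by
    refine lt_of_le_of_lt ?_ hr
    exact pow_le_pow_of_le_one (by linarith [min_le_right ρ 1]) (by linarith) (Nat.le_succ r)
  have hKc : Fintype.card K = N₀ * s := by
    show Fintype.card (Fin N₀ × Fin s) = N₀ * s
    rw [Fintype.card_prod, Fintype.card_fin, Fintype.card_fin]
  refine ⟨Fintype.card K * (r + 1), ?_, fun f κ hκ hf hV D hD => ?_⟩
  · rw [hKc]
    calc m ≤ N₀ := hL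
      _ ≤ N₀ * s := Nat.le_mul_of_pos_right _ hs
      _ ≤ N₀ * s * (r + 1) := Nat.le_mul_of_pos_right _ (Nat.succ_pos r)
  · have h := block_rec a m (η := ε / 2) (by linarith) K hsub hθ0.le (min_le_right _ _)
      (min_le_left _ _) (r + 1) (Fin (Fintype.card K * (r + 1))) (Fintype.card_fin _) f κ hκ hf hV D hD
    have h1 : κ * dn D ≤ κ := by
      calc κ * dn D ≤ κ * 1 := mul_le_mul_of_nonneg_left (dn_le_one D) hκ
        _ = κ := mul_one κ
    have h2 : (1 - θ) ^ (r + 1) * dn D ≤ ε / 2 := by
      calc (1 - θ) ^ (r + 1) * dn D ≤ (1 - θ) ^ (r + 1) * 1 := by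
            apply mul_le_mul_of_nonneg_left (dn_le_one D)
            exact pow_nonneg (by linarith [min_le_right ρ 1]) _
        _ ≤ ε / 2 := by rw [mul_one]; exact hr'.le
    linarith

/-- intersections of insensitive sets -/
theorem many_ins (hM : MD α) (S : Finset α) : ∀ (m : ℕ) (ε : ℝ), 0 < ε → ∃ n : ℕ, m ≤ n ∧
    ∀ (f : (Fin n → Option α) → ℝ) (κ : ℝ), 0 ≤ κ → (∀ x, f x ≤ 1) →
    (∀ V : Fin n → Option α ⊕ Fin m, Pr V → av (fun x => f (ap V x)) ≤ κ) →
    ∀ D : α → Set (Fin n → Option α), (∀ a ∈ S, Ins a (D a)) →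
      av ({x | ∀ a ∈ S, x ∈ D a}.indicator f) ≤ κ + ε := by
  classical
  induction S using Finset.induction_on with
  | empty =>
    intro m ε hε
    refine ⟨m, le_rfl, fun f κ hκ hf hV D _ => ?_⟩
    have h1 := hV (fun i => Sum.inr i) (fun j => ⟨j, rfl⟩)
    have h2 : (fun x => f (ap (fun i : Fin m => (Sum.inr i : Option α ⊕ Fin m)) x)) = f := by
      funext x
      rfl
    rw [h2] at h1
    have h3 : {x : Fin m → Option α | ∀ a ∈ (∅ : Finset α), x ∈ D a} = Set.univ := by
      ext x
      simp
    rw [h3, Set.indicator_univ]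
    linarith
  | insert b S hb ih =>
    intro m ε hε
    obtain ⟨n', hmn', hn'⟩ := ih m (ε / 2) (by linarith)
    obtain ⟨n, hn'n, hn⟩ := one_ins hM b n' (ε := ε / 2) (by linarith)
    refine ⟨n, hmn'.trans hn'n, fun f κ hκ hf hV D hD => ?_⟩
    have h1 := hn ({x | ∀ a ∈ S, x ∈ D a}.indicator f) (κ + ε / 2) (by linarith)
      (fun x => by
        by_cases hx : x ∈ {x | ∀ a ∈ S, x ∈ D a}
        · rw [Set.indicator_of_mem hx]
          exact hf x
        · rw [Set.indicator_of_notMem hx]
          exact zero_le_one)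
      (fun V hVp => by
        have h2 := hn' (fun x => f (ap V x)) κ hκ (fun x => hf _) (fun U hU => by
          have h3 := hV (cp V U) (Pr_cp hVp hU)
          simp only [ap_cp] at h3
          exact h3) (fun a => {x | ap V x ∈ D a}) (fun a ha => Ins_pull (hD a (mem_insert_of_mem ha)) V)
        exact h2)
      (D b) (hD b (mem_insert_self b S))
    have h4 : (D b).indicator ({x | ∀ a ∈ S, x ∈ D a}.indicator f) =
        {x | ∀ a ∈ insert b S, x ∈ D a}.indicator f := by
      rw [Set.indicator_indicator]
      congr 1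
      ext x
      simp
    rw [h4] at h1
    linarith

end Step

end Pool.Agent.H602R3.DHJ
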