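import Mathlib
import Pool.Agent.H602R3.DHJ.Part
import Pool.Agent.H602R3.DHJ.GR

/-!
The density Hales-Jewett theorem: the induction on the alphabet.
-/

namespace Pool.Agent.H602R3.DHJ

open Finset

section Main

variable {α : Type} [Fintype α] [DecidableEq α] [Nonempty α]

omit [Fintype α] [DecidableEq α] [Nonempty α] in
/-- replacing the new letter in a parameter word -/
theorem getD_ext {ι η : Type} (U : ι → α ⊕ η) (y : η → Option α) (a : α) :
    (fun i => some ((ap (ext U) y i).getD a)) = ap (ext U) (fun j => some ((y j).getD a)) := by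
  funext i
  unfold ap ext
  rcases U i with b | j <;> rfl

omit [DecidableEq α] [Nonempty α] in
theorem dn_nonone (n : ℕ) : dn {y : Fin n → Option α | ∀ j, y j ≠ none} =
    ((Fintype.card α : ℝ) / (Fintype.card α + 1)) ^ n := by
  classical
  have h1 : ∀ u : Fin n → Option α, Set.indicator {y : Fin n → Option α | ∀ j, y j ≠ none}
      (fun _ => (1 : ℝ)) u = ∏ i, (if u i = none then (0 : ℝ) else 1) := by
    intro u
    by_cases h : ∀ j, u j ≠ none
    · rw [Set.indicator_of_mem (by exact h)]
      symm
      apply prod_eq_one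
      intro i _
      rw [if_neg (h i)]
    · rw [Set.indicator_of_notMem (by exact h)]
      push Not at h
      obtain ⟨i, hi⟩ := h
      symm
      apply prod_eq_zero (mem_univ i)
      rw [if_pos hi]
  unfold dn
  rw [show Set.indicator {y : Fin n → Option α | ∀ j, y j ≠ none} (fun _ => (1 : ℝ)) =
    fun u => ∏ i, (if u i = none then (0 : ℝ) else 1) from funext h1]
  rw [av_prodFun (fun _ (o : Option α) => if o = none then (0 : ℝ) else 1)]
  rw [prod_const, card_univ, Fintype.card_fin]
  congr 1
  unfold av
  rw [Fintype.card_option, Fintype.sum_option]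
  simp

/-- values are large if they are bounded by nearly their average -/
theorem large_of_av {X : Type*} [Fintype X] [Nonempty X] (f : X → ℝ) {b a : ℝ} (hb : ∀ x, f x ≤ b)
    (ha : a ≤ av f) (x : X) : b - Fintype.card X * (b - a) ≤ f x := by
  have h1 : b - f x ≤ ∑ y, (b - f y) :=
    single_le_sum (f := fun y => b - f y) (fun y _ => by linarith [hb y]) (mem_univ x)
  rw [sum_sub_distrib, sum_const, card_univ, nsmul_eq_mul] at h1
  have h2 : (Fintype.card X : ℝ) * av f = ∑ y, f y := by
    unfold av
    have : (Fintype.card X : ℝ) ≠ 0 := by exact_mod_cast Fintype.card_ne_zero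
    field_simp
  have h3 : (Fintype.card X : ℝ) * a ≤ Fintype.card X * av f :=
    mul_le_mul_of_nonneg_left ha (by positivity)
  linarith

omit [Nonempty α] in
/-- the complement of an intersection of insensitive sets -/
theorem compl_ins {n : ℕ} {ε : ℝ} (f : (Fin n → Option α) → ℝ)
    (h : ∀ D : α → Set (Fin n → Option α), (∀ a, Ins a (D a)) →
      av ({x | ∀ a, x ∈ D a}.indicator f) ≤ ε)
    (C : α → Set (Fin n → Option α)) (hC : ∀ a, Ins a (C a)) (S : Finset α) :
    av ({x | ∀ a ∈ S, x ∈ C a}ᶜ.indicator f) ≤ S.card * ε := by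
  classical
  induction S using Finset.induction_on with
  | empty =>
    have : {x : Fin n → Option α | ∀ a ∈ (∅ : Finset α), x ∈ C a}ᶜ = ∅ := by
      ext x
      simp
    rw [this]
    unfold av
    simp
  | insert b S hb ih =>
    have h1 := h (fun a => if a = b then (C b)ᶜ else if a ∈ S then C a else Set.univ) (by
      intro a
      split_ifs with h1 h2
      · rw [h1]
        exact Ins_compl (hC b)
      · exact hC a
      · exact Ins_univ)
    have h2 : {x : Fin n → Option α | ∀ a, x ∈ (if a = b then (C b)ᶜ else if a ∈ S then C a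
        else Set.univ : Set (Fin n → Option α))} = {x | ∀ a ∈ S, x ∈ C a} ∩ (C b)ᶜ := by
      ext x
      constructor
      · intro hx
        have hx' : ∀ a, x ∈ (if a = b then (C b)ᶜ else if a ∈ S then C a
          else Set.univ : Set (Fin n → Option α)) := hx
        refine ⟨fun a ha => ?_, ?_⟩
        · have := hx' a
          rw [if_neg (by rintro rfl; exact hb ha), if_pos ha] at this
          exact this
        · have := hx' b
          rw [if_pos rfl] at this
          exact this
      · rintro ⟨hx1, hx2⟩ a
        show x ∈ (if a = b then (C b)ᶜ else if a ∈ S then C a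
          else Set.univ : Set (Fin n → Option α))
        split_ifs with h1 h2
        · exact hx2
        · exact hx1 a h2
        · exact Set.mem_univ _
    rw [h2] at h1
    have h3 : av ({x | ∀ a ∈ insert b S, x ∈ C a}ᶜ.indicator f) =
        av ({x | ∀ a ∈ S, x ∈ C a}ᶜ.indicator f) +
        av (({x | ∀ a ∈ S, x ∈ C a} ∩ (C b)ᶜ).indicator f) := by
      rw [← av_add]
      congr 1
      funext x
      by_cases hx : ∀ a ∈ S, x ∈ C a
      · rw [Set.indicator_of_notMem (s := {x | ∀ a ∈ S, x ∈ C a}ᶜ) (by simpa using hx), zero_add]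
        by_cases hxb : x ∈ C b
        · rw [Set.indicator_of_notMem, Set.indicator_of_notMem]
          · rintro ⟨_, h4⟩
            exact h4 hxb
          · intro h4
            apply h4
            intro a ha
            rcases mem_insert.1 ha with rfl | ha
            · exact hxb
            · exact hx a ha
        · rw [Set.indicator_of_mem, Set.indicator_of_mem]
          · exact ⟨hx, hxb⟩
          · intro h4
            exact hxb (h4 b (mem_insert_self b S))
      · rw [Set.indicator_of_mem (s := {x | ∀ a ∈ S, x ∈ C a}ᶜ) (by simpa using hx),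
          Set.indicator_of_notMem (s := {x | ∀ a ∈ S, x ∈ C a} ∩ (C b)ᶜ), add_zero,
          Set.indicator_of_mem]
        · intro h4
          exact hx fun a ha => h4 a (mem_insert_of_mem ha)
        · rintro ⟨h4, _⟩
          exact hx h4
    rw [h3, card_insert_of_notMem hb]
    push_cast
    linarith

/-- the induction step -/
theorem step (hD : D α) : D (Option α) := by
  classical
  have hM : MD α := MD_of_D hD
  by_contra hcon
  unfold D at hcon
  push Not at hcon
  obtain ⟨δ, hδ, hbad⟩ := hcon
  -- the critical density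
  set 𝒟 : Set ℝ := {δ | ∀ N : ℕ, ∃ A : Set (Fin N → Option α), LFr A ∧ δ ≤ dn A} with h𝒟
  have hδ𝒟 : δ ∈ 𝒟 := hbad
  have hbdd : BddAbove 𝒟 := by
    refine ⟨1, fun x hx => ?_⟩
    obtain ⟨A, _, hA⟩ := hx 0
    exact hA.trans (dn_le_one A)
  set δ₀ : ℝ := sSup 𝒟 with hδ₀
  have hδ₀pos : 0 < δ₀ := lt_of_lt_of_le hδ (le_csSup hbdd hδ𝒟)
  have hup : ∀ ε : ℝ, 0 < ε → ∃ N : ℕ, ∀ A : Set (Fin N → Option α), LFr A → dn A < δ₀ + ε := by
    intro ε hε
    by_contra h
    push Not at h
    have : δ₀ + ε ∈ 𝒟 := h
    have := le_csSup hbdd this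
    linarith
  have hlow : ∀ ε : ℝ, 0 < ε → ∀ N : ℕ, ∃ A : Set (Fin N → Option α), LFr A ∧ δ₀ - ε ≤ dn A := by
    intro ε hε N
    obtain ⟨x, hx, hlt⟩ := exists_lt_of_lt_csSup (s := 𝒟) ⟨δ, hδ𝒟⟩ (show δ₀ - ε < sSup 𝒟 by linarith)
    obtain ⟨A, hA, hAd⟩ := hx N
    exact ⟨A, hA, hlt.le.trans hAd⟩
  -- the constants
  obtain ⟨M₀, hM₀⟩ := hD (δ₀ / 4) (by linarith)
  set L : ℕ := Fintype.card (Fin M₀ → α ⊕ Unit) with hL
  have hLpos : (0 : ℝ) < L := by
    rw [hL]
    exact_mod_cast Fintype.card_pos
  set γ : ℝ := δ₀ / 4 / L with hγ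
  have hγpos : 0 < γ := by positivity
  set k : ℕ := Fintype.card α with hk
  have hkpos : (0 : ℝ) ≤ k := by positivity
  set ε : ℝ := min (δ₀ * γ / (4 * (k + 3))) (min (δ₀ / 2) (1 / 2)) with hε
  have hεpos : 0 < ε := by
    apply lt_min
    · positivity
    · apply lt_min <;> [linarith; norm_num]
  have hε1 : (k + 3) * ε ≤ δ₀ * γ / 4 := by
    have h1 : ε ≤ δ₀ * γ / (4 * (k + 3)) := min_le_left _ _
    calc (k + 3) * ε ≤ (k + 3) * (δ₀ * γ / (4 * (k + 3))) :=
          mul_le_mul_of_nonneg_left h1 (by positivity)
      _ = δ₀ * γ / 4 := by field_simp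
  have hε2 : ε ≤ δ₀ / 2 := (min_le_right _ _).trans (min_le_left _ _)
  have hε3 : ε ≤ 1 / 2 := (min_le_right _ _).trans (min_le_right _ _)
  obtain ⟨m₀, hm₀⟩ := hup ε hεpos
  obtain ⟨m₁, hm₁⟩ : ∃ m₁ : ℕ, ((k : ℝ) / (k + 1)) ^ m₁ < ε := by
    have h := tendsto_pow_atTop_nhds_zero_of_lt_one (r := (k : ℝ) / (k + 1)) (by positivity)
      (by rw [div_lt_one (by positivity)]; linarith)
    exact (h.eventually (gt_mem_nhds hεpos)).exists
  obtain ⟨n, hmn, hn⟩ := many_ins hM univ (max m₀ m₁) ε hεpos
  have hnonone : dn {y : Fin n → Option α | ∀ j, y j ≠ none} ≤ ε := by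
    rw [dn_nonone]
    refine le_trans ?_ hm₁.le
    apply pow_le_pow_of_le_one (by positivity)
    · rw [div_le_one (by positivity)]
      linarith
    · exact (le_max_right _ _).trans hmn
  obtain ⟨M, hGR⟩ := GR (α := α) M₀ n
  set T : ℕ := Fintype.card (Fin M → Option α) with hT
  have hTpos : (0 : ℝ) < T := by
    rw [hT]
    exact_mod_cast Fintype.card_pos
  set ε' : ℝ := ε / (2 * T) with hε'
  have hε'pos : 0 < ε' := by positivity
  obtain ⟨n', hn'⟩ := hup ε' hε'pos
  -- the set
  obtain ⟨A₀, hA₀, hA₀d⟩ := hlow ε' hε'pos (M + n')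
  set A : Set (Fin M ⊕ Fin n' → Option α) := {x | x ∘ finSumFinEquiv.symm ∈ A₀} with hA
  have hAL : LFr A := LFr_equiv hA₀ finSumFinEquiv.symm
  have hAd : δ₀ - ε' ≤ dn A := by
    rw [hA, dn_equivWords A₀ finSumFinEquiv.symm]
    exact hA₀d
  -- all sections have nearly the critical density
  have hsec : ∀ t : Fin M → Option α, δ₀ - ε ≤ dn {z : Fin n' → Option α | Sum.elim t z ∈ A} := by
    intro t
    have h1 : dn A = av (fun t : Fin M → Option α => dn {z : Fin n' → Option α | Sum.elim t z ∈ A}) := by
      unfold dn
      rw [av_sumWords]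
      rfl
    have h2 := large_of_av (fun t : Fin M → Option α => dn {z : Fin n' → Option α | Sum.elim t z ∈ A})
      (b := δ₀ + ε') (a := δ₀ - ε') (fun t => (hn' _ (LFr_right hAL t)).le) (by rw [← h1]; exact hAd) t
    have h3 : (T : ℝ) * (δ₀ + ε' - (δ₀ - ε')) = ε := by
      rw [hε']
      field_simp
      ring
    rw [← hT, h3] at h2
    linarith
  -- good words
  set good : Set (Fin M → Option α) := {w | γ ≤ dn {z : Fin n' → Option α | ∀ a : α,
    Sum.elim (fun i => some ((w i).getD a)) z ∈ A}} with hgood
  obtain ⟨U, hUp, hU⟩ := hGR good (by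
    intro U _
    set Bz : (Fin n' → Option α) → Set (Fin M₀ → α) := fun z =>
      {x | Sum.elim (fun i => some (ap U x i)) z ∈ A} with hBz
    have h1 : δ₀ / 2 ≤ av (fun z => dn (Bz z)) := by
      have h2 : av (fun z => dn (Bz z)) = av (fun x : Fin M₀ → α =>
          dn {z : Fin n' → Option α | Sum.elim (fun i => some (ap U x i)) z ∈ A}) := by
        unfold dn
        rw [av_comm]
        rfl
      rw [h2]
      calc δ₀ / 2 = av (fun _ : Fin M₀ → α => δ₀ / 2) := (av_const _).symm
        _ ≤ _ := av_mono fun x => by
          have := hsec (fun i => some (ap U x i))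
          linarith
    set S : Set (Fin n' → Option α) := {z | δ₀ / 4 ≤ dn (Bz z)} with hS
    have hSd : δ₀ / 4 ≤ dn S := dn_large _ (fun z => dn_le_one _) (by linarith) (by linarith)
    have hline : ∀ z : Fin n' → Option α, ∃ V : Fin M₀ → α ⊕ Unit, z ∈ S →
        Pr V ∧ ∀ a, ap V (fun _ => a) ∈ Bz z := by
      intro z
      by_cases hz : z ∈ S
      · by_contra hcon
        push Not at hcon
        have : dn (Bz z) < δ₀ / 4 := hM₀ _ (by
          intro V hV
          exact (hcon V).2 hV)
        exact absurd hz (not_le.2 this)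
      · exact ⟨fun _ => Sum.inr (), fun h => absurd h hz⟩
    choose F hF using hline
    obtain ⟨V, hV⟩ := pigeon S F
    have hVd : γ ≤ dn {z | z ∈ S ∧ F z = V} := by
      rw [hγ, div_le_iff₀' hLpos]
      exact hSd.trans hV
    obtain ⟨z₀, hz₀⟩ := nonempty_of_dn_pos (lt_of_lt_of_le hγpos hVd)
    have hVpr : Pr V := by
      have := (hF z₀ hz₀.1).1
      rw [hz₀.2] at this
      exact this
    refine ⟨ap (ext V) (fun _ => none), ?_, ?_⟩
    · obtain ⟨i, hi⟩ := hVpr ()
      refine ⟨i, ?_⟩
      unfold ap ext
      rw [hi]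
      rfl
    · show γ ≤ _
      refine hVd.trans (dn_mono ?_)
      rintro z ⟨hz1, hz2⟩ a
      have h3 := (hF z hz1).2 a
      rw [hz2] at h3
      have h4 : (fun i => some ((ap (ext U) (ap (ext V) (fun _ => none)) i).getD a)) =
          fun i => some (ap U (ap V (fun _ => a)) i) := by
        rw [getD_ext]
        have h5 : (fun j => some ((ap (ext V) (fun _ => none) j).getD a)) =
            fun j => some (ap V (fun _ => a) j) := by
          rw [getD_ext]
          exact ap_ext_some V (fun _ => a)
        rw [h5]
        exact ap_ext_some U (ap V (fun _ => a))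
      rw [h4]
      exact h3)
  -- the two families
  set Az : (Fin n' → Option α) → Set (Fin n → Option α) := fun z =>
    {y | Sum.elim (ap (ext U) y) z ∈ A} with hAz
  set Cz : α → (Fin n' → Option α) → Set (Fin n → Option α) := fun a z =>
    {y | Sum.elim (ap (ext U) (fun j => some ((y j).getD a))) z ∈ A} with hCz
  have hAzav : δ₀ - ε ≤ av (fun z => dn (Az z)) := by
    have h2 : av (fun z => dn (Az z)) = av (fun y : Fin n → Option α =>
        dn {z : Fin n' → Option α | Sum.elim (ap (ext U) y) z ∈ A}) := by
      unfold dn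
      rw [av_comm]
      rfl
    rw [h2]
    calc δ₀ - ε = av (fun _ : Fin n → Option α => δ₀ - ε) := (av_const _).symm
      _ ≤ _ := av_mono fun y => hsec _
  have hCzav : γ / 2 ≤ av (fun z => dn {y | ∀ a, y ∈ Cz a z}) := by
    have h2 : av (fun z => dn {y | ∀ a, y ∈ Cz a z}) = av (fun y : Fin n → Option α =>
        dn {z : Fin n' → Option α | ∀ a, y ∈ Cz a z}) := by
      unfold dn
      rw [av_comm]
      rfl
    rw [h2]
    have h3 : av (fun y : Fin n → Option α => γ - γ *
        Set.indicator {y : Fin n → Option α | ∀ j, y j ≠ none} (fun _ => (1 : ℝ)) y) ≤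
        av (fun y : Fin n → Option α => dn {z : Fin n' → Option α | ∀ a, y ∈ Cz a z}) := by
      apply av_mono
      intro y
      by_cases hy : ∀ j, y j ≠ none
      · rw [Set.indicator_of_mem (by exact hy)]
        have := dn_nonneg {z : Fin n' → Option α | ∀ a, y ∈ Cz a z}
        linarith
      · rw [Set.indicator_of_notMem (by exact hy)]
        push Not at hy
        have h4 : γ ≤ dn {z : Fin n' → Option α | ∀ a : α,
          Sum.elim (fun i => some ((ap (ext U) y i).getD a)) z ∈ A} := hU y hy
        have h5 : {z : Fin n' → Option α | ∀ a : α,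
            Sum.elim (fun i => some ((ap (ext U) y i).getD a)) z ∈ A} =
            {z : Fin n' → Option α | ∀ a, y ∈ Cz a z} := by
          ext z
          constructor
          · intro h a
            have := h a
            rw [getD_ext] at this
            exact this
          · intro h a
            rw [getD_ext]
            exact h a
        rw [h5] at h4
        linarith
    rw [av_sub, av_const, av_mul] at h3
    have h4 : av (fun y => Set.indicator {y : Fin n → Option α | ∀ j, y j ≠ none}
      (fun _ => (1 : ℝ)) y) ≤ ε := hnonone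
    have h5 : γ * av (fun y => Set.indicator {y : Fin n → Option α | ∀ j, y j ≠ none}
      (fun _ => (1 : ℝ)) y) ≤ γ * (1 / 2) := mul_le_mul_of_nonneg_left (h4.trans hε3) hγpos.le
    linarith
  obtain ⟨z, hz⟩ := exists_le_av (fun z => dn (Az z) + δ₀ * dn {y | ∀ a, y ∈ Cz a z})
  rw [av_add, av_mul] at hz
  have hz' : δ₀ - ε + δ₀ * (γ / 2) ≤ dn (Az z) + δ₀ * dn {y | ∀ a, y ∈ Cz a z} := by
    have := mul_le_mul_of_nonneg_left hCzav hδ₀pos.le
    linarith
  -- the upper bound
  have hAzL : LFr (Az z) := LFr_pull (LFr_left hAL z) (Pr_ext hUp)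
  set f : (Fin n → Option α) → ℝ := fun y =>
    (Az z).indicator (fun _ => (1 : ℝ)) y - (δ₀ + ε) with hf
  have hfsmall : ∀ D : α → Set (Fin n → Option α), (∀ a, Ins a (D a)) →
      av ({x | ∀ a, x ∈ D a}.indicator f) ≤ ε := by
    intro D hDi
    have h1 := hn f 0 le_rfl (fun x => by
        have := ind_le_one (Az z) x
        rw [hf]
        simp only
        linarith) (fun V hV => by
        have h2 : dn {x | ap V x ∈ Az z} < δ₀ + ε :=
          D_up hm₀ (Fin (max m₀ m₁)) (by rw [Fintype.card_fin]; exact le_max_left _ _) _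
            (LFr_pull hAzL hV)
        have h3 : av (fun x => f (ap V x)) = dn {x | ap V x ∈ Az z} - (δ₀ + ε) := by
          rw [hf]
          simp only
          rw [av_sub, av_const]
          rfl
        rw [h3]
        linarith) D (fun a _ => hDi a)
    have h4 : {x : Fin n → Option α | ∀ a ∈ (univ : Finset α), x ∈ D a} = {x | ∀ a, x ∈ D a} := by
      ext x
      simp
    rw [h4] at h1
    linarith
  have hCins : ∀ a, Ins a (Cz a z) := by
    intro a x y hxy hx
    show Sum.elim (ap (ext U) (fun j => some ((y j).getD a))) z ∈ A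
    have h1 : (fun j => some ((y j).getD a)) = fun j => some ((x j).getD a) := by
      funext j
      rw [hxy j]
    rw [h1]
    exact hx
  have hcompl := compl_ins f hfsmall (fun a => Cz a z) hCins univ
  have h4 : {x : Fin n → Option α | ∀ a ∈ (univ : Finset α), x ∈ Cz a z} = {x | ∀ a, x ∈ Cz a z} := by
    ext x
    simp
  rw [h4, card_univ, ← hk] at hcompl
  set C : Set (Fin n → Option α) := {x | ∀ a, x ∈ Cz a z} with hC
  have hsplit : av f = av (C.indicator f) + av (Cᶜ.indicator f) := by
    rw [← av_add]
    congr 1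
    funext x
    rw [Set.indicator_self_add_compl_apply]
  have havf : av f = dn (Az z) - (δ₀ + ε) := by
    rw [hf, av_sub, av_const]
    rfl
  have hCf : av (C.indicator f) ≤ ε - δ₀ * dn C := by
    have h5 : av (C.indicator f) ≤ av (fun y =>
        Set.indicator {y : Fin n → Option α | ∀ j, y j ≠ none} (fun _ => (1 : ℝ)) y -
        δ₀ * C.indicator (fun _ => (1 : ℝ)) y) := by
      apply av_mono
      intro y
      by_cases hy : y ∈ C
      · rw [Set.indicator_of_mem hy, Set.indicator_of_mem hy, hf]
        simp only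
        by_cases hyA : y ∈ Az z
        · -- no new letter
          have hyn : ∀ j, y j ≠ none := by
            intro j hj
            obtain ⟨o, ho⟩ := hAzL (fun i => match y i with
              | none => Sum.inr ()
              | some b => Sum.inl (some b)) (by
                rintro ⟨⟩
                refine ⟨j, ?_⟩
                simp only [hj])
            apply ho
            rcases o with _ | a
            · have h6 : ap (fun i => match y i with
                | none => Sum.inr ()
                | some b => Sum.inl (some b)) (fun _ : Unit => none) = y := by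
                funext i
                unfold ap
                simp only
                rcases y i with _ | b <;> rfl
              rw [h6]
              exact hyA
            · have h6 : ap (fun i => match y i with
                | none => Sum.inr ()
                | some b => Sum.inl (some b)) (fun _ : Unit => some a) =
                  fun i => some ((y i).getD a) := by
                funext i
                unfold ap
                simp only
                rcases y i with _ | b <;> rfl
              rw [h6]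
              exact hy a
          rw [Set.indicator_of_mem hyA, Set.indicator_of_mem (by exact hyn)]
          linarith
        · rw [Set.indicator_of_notMem hyA]
          have : 0 ≤ Set.indicator {y : Fin n → Option α | ∀ j, y j ≠ none} (fun _ => (1 : ℝ)) y :=
            Set.indicator_nonneg (fun _ _ => zero_le_one) y
          linarith
      · rw [Set.indicator_of_notMem hy, Set.indicator_of_notMem hy]
        have : 0 ≤ Set.indicator {y : Fin n → Option α | ∀ j, y j ≠ none} (fun _ => (1 : ℝ)) y :=
          Set.indicator_nonneg (fun _ _ => zero_le_one) y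
        linarith
    rw [av_sub, av_mul] at h5
    have h6 : av (fun y => Set.indicator {y : Fin n → Option α | ∀ j, y j ≠ none}
      (fun _ => (1 : ℝ)) y) ≤ ε := hnonone
    have h7 : av (fun y => C.indicator (fun _ => (1 : ℝ)) y) = dn C := rfl
    rw [h7] at h5
    linarith
  have hδγ : 0 < δ₀ * γ := mul_pos hδ₀pos hγpos
  nlinarith

end Main

/-- one letter -/
theorem D_unique (α : Type) [Fintype α] [Nonempty α] [Subsingleton α] : D α := by
  intro δ hδ
  refine ⟨1, fun A hA => ?_⟩
  have : A = ∅ := by
    by_contra h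
    obtain ⟨x, hx⟩ := Set.nonempty_iff_ne_empty.2 h
    obtain ⟨a, ha⟩ := hA (fun _ => Sum.inr ()) (fun _ => ⟨0, rfl⟩)
    apply ha
    have : ap (fun _ : Fin 1 => (Sum.inr () : α ⊕ Unit)) (fun _ => a) = x := by
      funext i
      exact Subsingleton.elim _ _
    rw [this]
    exact hx
  rw [this, dn_empty]
  exact hδ

theorem D_equiv {α β : Type} [Fintype α] [Fintype β] (e : α ≃ β) (h : D α) : D β := by
  intro δ hδ
  obtain ⟨N, hN⟩ := h δ hδ
  refine ⟨N, fun A hA => ?_⟩
  have h1 : dn {x : Fin N → α | e ∘ x ∈ A} = dn A :=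
    av_equiv ((Equiv.refl (Fin N)).arrowCongr e) (A.indicator fun _ => (1 : ℝ))
  rw [← h1]
  apply hN
  intro V hV
  obtain ⟨b, hb⟩ := hA (fun i => Sum.map e id (V i)) (by
    intro j
    obtain ⟨i, hi⟩ := hV j
    exact ⟨i, by simp only [hi]; rfl⟩)
  refine ⟨e.symm b, fun hcon => hb ?_⟩
  have h2 : ap (fun i => Sum.map e id (V i)) (fun _ => b) = e ∘ ap V (fun _ => e.symm b) := by
    funext i
    unfold ap
    simp only [Function.comp]
    rcases V i with a | u
    · rfl
    · simp
  rw [h2]
  exact hcon

/-- **The density Hales-Jewett theorem** -/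
theorem dhj (k : ℕ) : D (Fin (k + 1)) := by
  induction k with
  | zero =>
    have : Subsingleton (Fin (0 + 1)) := inferInstanceAs (Subsingleton (Fin 1))
    exact D_unique _
  | succ k ih => exact D_equiv (finSuccEquiv (k + 1)).symm (step ih)

end Pool.Agent.H602R3.DHJ
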