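import Mathlib
import Pool.Agent.H602R3.DHJ.Main
import Pool.Agent.H602R3.TupClusters
import Pool.Agent.H602R3.DickEng

/-!
The density Hales-Jewett theorem and the coloured Maynard-Tao theorem.
-/

namespace Pool.Agent.H602R3.DHJ

open Finset Pool.Agent.H461R2.PD

/-- a quarter of all words contains a line -/
theorem line_of_card (k : ℕ) : ∃ N : ℕ, ∀ S : Finset (Fin N → Fin (k + 1)),
    Fintype.card (Fin N → Fin (k + 1)) ≤ 4 * S.card →
    ∃ V : Fin N → Fin (k + 1) ⊕ Unit, Pr V ∧ ∀ a, ap V (fun _ => a) ∈ S := by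
  classical
  obtain ⟨N, hN⟩ := dhj k (1 / 4) (by norm_num)
  refine ⟨N, fun S hS => ?_⟩
  by_contra hcon
  push Not at hcon
  have h1 : dn (S : Set (Fin N → Fin (k + 1))) < 1 / 4 := hN _ (by
    intro V hV
    obtain ⟨a, ha⟩ := hcon V hV
    exact ⟨a, by simpa using ha⟩)
  have h2 : dn (S : Set (Fin N → Fin (k + 1))) = (S.card : ℝ) / Fintype.card (Fin N → Fin (k + 1)) := by
    unfold dn av
    congr 1
    rw [← sum_subset (subset_univ S)]
    · rw [sum_congr rfl fun x hx => Set.indicator_of_mem (by simpa using hx) _]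
      simp
    · intro x _ hx
      rw [Set.indicator_of_notMem]
      simpa using hx
  have hpos : (0 : ℝ) < Fintype.card (Fin N → Fin (k + 1)) := by exact_mod_cast Fintype.card_pos
  rw [h2, div_lt_iff₀ hpos] at h1
  have h3 : (Fintype.card (Fin N → Fin (k + 1)) : ℝ) ≤ 4 * S.card := by exact_mod_cast hS
  linarith

/-- sums along a line -/
theorem sum_line {k N : ℕ} (V : Fin N → Fin (k + 1) ⊕ Unit) (g : Fin N → Fin (k + 1) → ℤ) :
    ∃ s : ℤ, ∀ a, ∑ i, g i (ap V (fun _ => a) i) =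
      s + ∑ i ∈ univ.filter (fun i => V i = Sum.inr ()), g i a := by
  classical
  refine ⟨∑ i ∈ univ.filter (fun i => ¬ V i = Sum.inr ()), g i (ap V (fun _ => 0) i), fun a => ?_⟩
  rw [← sum_filter_add_sum_filter_not univ (fun i => V i = Sum.inr ()), add_comm]
  congr 1
  · refine sum_congr rfl fun i hi => ?_
    have h := (mem_filter.1 hi).2
    congr 1
    unfold ap
    rcases hV : V i with b | u
    · rfl
    · exact absurd (by rw [hV]) h
  · refine sum_congr rfl fun i hi => ?_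
    have h := (mem_filter.1 hi).2
    congr 1
    unfold ap
    rw [h]
    rfl

/-- products along a line -/
theorem prod_line {k N : ℕ} (V : Fin N → Fin (k + 1) ⊕ Unit) (g : Fin N → Fin (k + 1) → ℕ)
    (hg : ∀ i a, 0 < g i a) :
    ∃ B : ℕ, 0 < B ∧ ∀ a, ∏ i, g i (ap V (fun _ => a) i) =
      (∏ i ∈ univ.filter (fun i => V i = Sum.inr ()), g i a) * B := by
  classical
  refine ⟨∏ i ∈ univ.filter (fun i => ¬ V i = Sum.inr ()), g i (ap V (fun _ => 0) i),
    Finset.prod_pos fun i _ => hg _ _, fun a => ?_⟩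
  rw [← prod_filter_mul_prod_filter_not univ (fun i => V i = Sum.inr ())]
  congr 1
  · refine prod_congr rfl fun i hi => ?_
    have h := (mem_filter.1 hi).2
    congr 1
    unfold ap
    rw [h]
    rfl
  · refine prod_congr rfl fun i hi => ?_
    have h := (mem_filter.1 hi).2
    congr 1
    unfold ap
    rcases hV : V i with b | u
    · rfl
    · exact absurd (by rw [hV]) h

/-- among `N` vectors some nonempty subset sum is near a good tuple -/
theorem near_sums (hQ : Quarter) (k : ℕ) : ∃ N Q : ℕ, 1 ≤ Q ∧ ∀ (q : ℕ) (r : ℤ), 1 ≤ q →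
    IsCoprime r (q : ℤ) → ∀ v : Fin N → Fin k → ℤ, ∃ W : Finset (Fin N), W.Nonempty ∧
    ∃ a : Fin k → ℤ, Function.Injective a ∧ (∀ i, a i ≠ 0) ∧
      (∀ i, |a i - Q * ∑ j ∈ W, v j i| < Q) ∧ Tup.Good q r a := by
  classical
  obtain ⟨N, hN⟩ := line_of_card k
  set T := Fintype.card (Fin N → Fin (k + 1)) with hT
  obtain ⟨Q, hQ1, hcl⟩ := Tup.clusters hQ T
  refine ⟨N, Q, hQ1, fun q r hq hqr v => ?_⟩
  set ε := Fintype.equivFin (Fin N → Fin (k + 1)) with hε
  set g : Fin N → Fin (k + 1) → ℤ := fun j => Fin.cons 0 (v j) with hg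
  obtain ⟨S, h, hS, hinj, hpos, hinf⟩ := hcl q r hq hqr (fun t => ∑ i, g i (ε.symm t i))
  obtain ⟨V, hV, hVS⟩ := hN (S.map ε.symm.toEmbedding) (by rw [card_map]; exact hS)
  obtain ⟨s, hs⟩ := sum_line V g
  have hmem : ∀ a, ε (ap V (fun _ => a)) ∈ S := by
    intro a
    obtain ⟨t, ht, hte⟩ := mem_map.1 (hVS a)
    have : t = ε (ap V (fun _ => a)) := by
      rw [← hte]
      simp
    rwa [← this]
  set W : Finset (Fin N) := univ.filter (fun i => V i = Sum.inr ()) with hW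
  have hWne : W.Nonempty := by
    obtain ⟨i, hi⟩ := hV ()
    exact ⟨i, by simp [hW, hi]⟩
  have hne : ∀ a b : Fin (k + 1), h (ε (ap V (fun _ => a))) = h (ε (ap V (fun _ => b))) → a = b := by
    intro a b hab
    exact congrFun (ap_inj hV (ε.injective (hinj hab))) ()
  refine ⟨W, hWne, fun i => h (ε (ap V (fun _ => i.succ))) - h (ε (ap V (fun _ => 0))), ?_, ?_, ?_, ?_⟩
  · intro i j hij
    have h1 : h (ε (ap V (fun _ => i.succ))) = h (ε (ap V (fun _ => j.succ))) :=
      sub_left_injective hij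
    exact Fin.succ_injective _ (hne _ _ h1)
  · intro i hi
    have h1 := hne _ _ (sub_eq_zero.1 hi)
    exact Fin.succ_ne_zero i h1
  · intro i
    have p1 := hpos (ε (ap V (fun _ => i.succ)))
    have p0 := hpos (ε (ap V (fun _ => 0)))
    simp only [Equiv.symm_apply_apply] at p1 p0
    rw [hs] at p1 p0
    have e1 : ∑ j ∈ W, g j i.succ = ∑ j ∈ W, v j i := by
      refine sum_congr rfl fun j _ => ?_
      rw [hg]
      simp
    have e0 : ∑ j ∈ W, g j 0 = 0 := by
      apply sum_eq_zero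
      intro j _
      rw [hg]
      simp
    rw [e1] at p1
    rw [e0, add_zero] at p0
    rw [abs_lt]
    constructor <;> nlinarith
  · exact Tup.good_of_mem hq hinf _ (hmem 0) (fun i : Fin k => ε (ap V (fun _ => i.succ)))
      (fun i => hmem _)

/-- among `N` vectors of positive integers some nonempty product is, up to bounded factors, a good
vector of leading coefficients -/
theorem near_prods (hQ : Quarter) (k : ℕ) (b : ℤ) (hb : b ≠ 0) : ∃ N C : ℕ,
    ∀ α : Fin N → Fin (k + 1) → ℕ, (∀ j i, 0 < α j i) → (∀ j i, IsCoprime (α j i : ℤ) b) →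
    ∃ W : Finset (Fin N), W.Nonempty ∧ ∃ c : Fin (k + 1) → ℕ, (∀ i, 1 ≤ c i ∧ c i ≤ C) ∧
      Function.Injective (fun i => c i * ∏ j ∈ W, α j i) ∧
      {n : ℕ | ∀ i, 0 < (c i : ℤ) * (∏ j ∈ W, (α j i : ℤ)) * n + b ∧
        Prime ((c i : ℤ) * (∏ j ∈ W, (α j i : ℤ)) * n + b)}.Infinite := by
  classical
  obtain ⟨N, hN⟩ := line_of_card k
  set T := Fintype.card (Fin N → Fin (k + 1)) with hT
  obtain ⟨C, hC1, hen⟩ := Dick.engine hQ T b hb
  refine ⟨N, C, fun α hα hαb => ?_⟩
  set ε := Fintype.equivFin (Fin N → Fin (k + 1)) with hε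
  obtain ⟨S, c, hS, hc, hcinj, hinf⟩ := hen (fun t => ∏ j, α j (ε.symm t j))
    (fun t => Finset.prod_pos fun j _ => hα _ _) (fun t => by
      push_cast
      exact IsCoprime.prod_left fun j _ => hαb _ _)
  obtain ⟨V, hV, hVS⟩ := hN (S.map ε.symm.toEmbedding) (by rw [card_map]; exact hS)
  obtain ⟨B, hB, hprod⟩ := prod_line V α hα
  have hmem : ∀ a, ε (ap V (fun _ => a)) ∈ S := by
    intro a
    obtain ⟨t, ht, hte⟩ := mem_map.1 (hVS a)
    have : t = ε (ap V (fun _ => a)) := by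
      rw [← hte]
      simp
    rwa [← this]
  set W : Finset (Fin N) := univ.filter (fun i => V i = Sum.inr ()) with hW
  have hWne : W.Nonempty := by
    obtain ⟨i, hi⟩ := hV ()
    exact ⟨i, by simp [hW, hi]⟩
  have hA : ∀ a, ∏ j, α j (ε.symm (ε (ap V (fun _ => a))) j) = (∏ j ∈ W, α j a) * B := by
    intro a
    rw [Equiv.symm_apply_apply]
    exact hprod a
  refine ⟨W, hWne, fun i => c (ε (ap V (fun _ => i))), fun i => ⟨(hc _).1, (hc _).2.1⟩, ?_, ?_⟩
  · intro i i' hii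
    have h1 : ε (ap V (fun _ => i)) = ε (ap V (fun _ => i')) := by
      apply hcinj
      show c (ε (ap V (fun _ => i))) * ∏ j, α j (ε.symm (ε (ap V (fun _ => i))) j) =
        c (ε (ap V (fun _ => i'))) * ∏ j, α j (ε.symm (ε (ap V (fun _ => i'))) j)
      rw [hA, hA, ← mul_assoc, ← mul_assoc]
      exact congrArg (· * B) hii
    exact congrFun (ap_inj hV (ε.injective h1)) ()
  · refine (hinf.image (f := fun n => B * n) (fun x _ y _ h =>
      Nat.eq_of_mul_eq_mul_left hB h)).mono ?_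
    rintro _ ⟨n, hn, rfl⟩ i
    have h := hn _ (hmem i)
    have e1 : (((∏ j, α j (ε.symm (ε (ap V (fun _ => i))) j) : ℕ)) : ℤ) =
        (∏ j ∈ W, (α j i : ℤ)) * B := by
      rw [hA]
      push_cast
      rfl
    rw [e1] at h
    have e2 : (c (ε (ap V (fun _ => i))) : ℤ) * (∏ j ∈ W, (α j i : ℤ)) * ((B * n : ℕ) : ℤ) + b =
        (c (ε (ap V (fun _ => i))) : ℤ) * ((∏ j ∈ W, (α j i : ℤ)) * B) * n + b := by
      push_cast
      ring
    show 0 < (c (ε (ap V (fun _ => i))) : ℤ) * (∏ j ∈ W, (α j i : ℤ)) * ((B * n : ℕ) : ℤ) + b ∧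
      Prime ((c (ε (ap V (fun _ => i))) : ℤ) * (∏ j ∈ W, (α j i : ℤ)) * ((B * n : ℕ) : ℤ) + b)
    rw [e2]
    exact h

end Pool.Agent.H602R3.DHJ
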